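import Pool.Agent.P8H84.CpTwo.NonNormal

set_option autoImplicit false

/-!
Question Q2: the square of `C_p(X, {0,1})` for compact `X`.
-/

namespace Pool.Agent.Results.MP_d76130_gt.CompactUnderCH

open Pool.Agent.P8H84.CpTwo

/-- (1) The continuum hypothesis can be forced, with `ω₁` preserved.  (2) Under the continuum
hypothesis there is a zero-dimensional compact (Hausdorff) space `X` such that `C_p(X, {0,1})` is
normal (even Lindelöf) while `C_p(X, {0,1}) × C_p(X, {0,1})` is not normal. -/
theorem result :
    (∃ (P : Type) (_ : Preorder P), Nonempty P ∧ ∀ p : P,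
      p ∈ Pool.Agent.Helper292.ForceCH.OmegaOnePreserved P ∧
      p ∈ Pool.Agent.Helper292.ForceCH.CHHolds P) ∧
    (Cardinal.aleph 1 = Cardinal.continuum.{0} →
      ∃ (X : Type) (_ : TopologicalSpace X), CompactSpace X ∧ T2Space X ∧
        TopologicalSpace.IsTopologicalBasis {s : Set X | IsClopen s} ∧
        NormalSpace {f : X → Bool // Continuous f} ∧
        LindelofSpace {f : X → Bool // Continuous f} ∧
        ¬ NormalSpace ({f : X → Bool // Continuous f} × {f : X → Bool // Continuous f})) := by
  refine ⟨?_, fun hCH => ?_⟩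
  · obtain ⟨P, i, h1, h2⟩ := Pool.Agent.Helper292.ForceCH.exists_forcing
    exact ⟨P, i, h1, fun p => ⟨(h2 p).1, (h2 p).2.2⟩⟩
  · obtain ⟨fam, h⟩ := exists_fam hCH
    have h1 := compactXX h
    have h2 := totallyDisconnectedXX (fam := fam)
    exact ⟨XX fam, inferInstance, h1, inferInstance, isTopologicalBasis_isClopen,
      normalZZ h, lindelofZZ h, not_normal hCH h⟩

end Pool.Agent.Results.MP_d76130_gt.CompactUnderCH
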